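import Mathlib

/-!
# Homomorphism testing in finite groups (threshold 2/9) and products of groups
-/

set_option autoImplicit false

namespace Pool.Agent.H13.Blr

open Finset

variable {G H : Type*} [Group G] [Fintype G] [DecidableEq G] [Group H] [DecidableEq H]

/-- the pairs at which `f` is not multiplicative -/
def badPairs (f : G → H) : Finset (G × G) := univ.filter fun p => f p.1 * f p.2 ≠ f (p.1 * p.2)

lemma collide (f : G → H) (x : G) :
    (univ.filter fun p : G × G =>
      f (x * p.1) * (f p.1)⁻¹ ≠ f (x * p.2) * (f p.2)⁻¹).card ≤ 2 * (badPairs f).card := by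
  classical
  have h : (univ.filter fun p : G × G =>
      f (x * p.1) * (f p.1)⁻¹ ≠ f (x * p.2) * (f p.2)⁻¹) ⊆
      (univ.filter fun p : G × G => (p.1, p.1⁻¹ * p.2) ∈ badPairs f) ∪
        (univ.filter fun p : G × G => (x * p.1, p.1⁻¹ * p.2) ∈ badPairs f) := by
    intro p hp
    rw [mem_filter] at hp
    by_contra hcon
    rw [mem_union, not_or] at hcon
    obtain ⟨h1, h2⟩ := hcon
    simp only [badPairs, mem_filter, mem_univ, true_and, not_not] at h1 h2
    apply hp.2
    have e1 : p.1 * (p.1⁻¹ * p.2) = p.2 := by group
    have e2 : x * p.1 * (p.1⁻¹ * p.2) = x * p.2 := by group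
    rw [e1] at h1
    rw [e2] at h2
    rw [← h2, ← h1]
    group
  refine (card_le_card h).trans ((card_union_le _ _).trans ?_)
  have c1 : (univ.filter fun p : G × G => (p.1, p.1⁻¹ * p.2) ∈ badPairs f).card ≤
      (badPairs f).card := by
    apply card_le_card_of_injOn (fun p : G × G => (p.1, p.1⁻¹ * p.2))
    · intro p hp
      simpa using hp
    · rintro ⟨a, b⟩ _ ⟨c, d⟩ _ hab
      simp only [Prod.mk.injEq] at hab
      obtain ⟨rfl, h⟩ := hab
      rw [mul_right_inj] at h
      rw [h]
  have c2 : (univ.filter fun p : G × G => (x * p.1, p.1⁻¹ * p.2) ∈ badPairs f).card ≤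
      (badPairs f).card := by
    apply card_le_card_of_injOn (fun p : G × G => (x * p.1, p.1⁻¹ * p.2))
    · intro p hp
      simpa using hp
    · rintro ⟨a, b⟩ _ ⟨c, d⟩ _ hab
      simp only [Prod.mk.injEq, mul_right_inj] at hab
      obtain ⟨rfl, h⟩ := hab
      rw [mul_right_inj] at h
      rw [h]
  omega

lemma plurality (f : G → H) (hf : 9 * (badPairs f).card < 2 * (Fintype.card G) ^ 2) (x : G) :
    ∃ h : H, 2 * Fintype.card G < 3 * (univ.filter fun y => f (x * y) = h * f y).card := by
  classical
  set N := Fintype.card G with hN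
  set φ : G → H := fun y => f (x * y) * (f y)⁻¹ with hφ
  set S : Finset (G × G) := univ.filter fun p => φ p.1 = φ p.2 with hS
  have hSc : S.card + (univ.filter fun p : G × G => φ p.1 ≠ φ p.2).card = N ^ 2 := by
    rw [hS, card_filter_add_card_filter_not, card_univ, Fintype.card_prod, sq]
  have hcol : (univ.filter fun p : G × G => φ p.1 ≠ φ p.2).card ≤ 2 * (badPairs f).card :=
    collide f x
  have hsum : S.card = ∑ y : G, (univ.filter fun z => φ y = φ z).card := by
    rw [hS, ← univ_product_univ, card_filter, sum_product]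
    simp only [card_filter]
  obtain ⟨y0, -, hy0⟩ : ∃ y ∈ (univ : Finset G), (∑ y : G, (univ.filter fun z => φ y = φ z).card) ≤
      N * (univ.filter fun z => φ y = φ z).card := by
    by_contra hcon
    push Not at hcon
    have hne : (univ : Finset G).Nonempty := ⟨1, mem_univ 1⟩
    have := sum_lt_sum_of_nonempty hne hcon
    rw [← mul_sum, sum_const, card_univ, smul_eq_mul] at this
    exact lt_irrefl _ this
  refine ⟨φ y0, ?_⟩
  have hF : (univ.filter fun z => φ y0 = φ z) = univ.filter fun y => f (x * y) = φ y0 * f y := by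
    ext z
    simp only [mem_filter, mem_univ, true_and]
    constructor
    · intro h
      rw [h, hφ]
      group
    · intro h
      show φ y0 = f (x * z) * (f z)⁻¹
      rw [h]
      group
  rw [← hF]
  set F := univ.filter fun z => φ y0 = φ z with hFdef
  have hsub : S ⊆ F ×ˢ F ∪ Fᶜ ×ˢ Fᶜ := by
    rintro ⟨a, b⟩ hab
    simp only [hS, mem_filter, mem_univ, true_and] at hab
    rw [mem_union, mem_product, mem_product, mem_compl, mem_compl]
    by_cases ha : a ∈ F
    · left
      refine ⟨ha, ?_⟩
      rw [hFdef, mem_filter] at ha ⊢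
      exact ⟨mem_univ _, ha.2.trans hab⟩
    · right
      refine ⟨ha, fun hb => ha ?_⟩
      rw [hFdef, mem_filter] at hb ⊢
      exact ⟨mem_univ _, hb.2.trans hab.symm⟩
  have hcardS : S.card ≤ F.card ^ 2 + (N - F.card) ^ 2 := by
    refine (card_le_card hsub).trans ((card_union_le _ _).trans ?_)
    rw [card_product, card_product, card_compl, sq, sq]
  have hFN : F.card ≤ N := card_le_univ _
  rw [hsum] at hSc hcardS
  set T := ∑ y : G, (univ.filter fun z => φ y = φ z).card
  obtain ⟨m, hm⟩ : ∃ m, N = F.card + m := ⟨N - F.card, by omega⟩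
  have hm' : N - F.card = m := by omega
  rw [hm'] at hcardS
  rw [hm] at hSc hf hy0 ⊢
  generalize F.card = M at *
  generalize (badPairs f).card = b at *
  generalize (univ.filter fun p : G × G => φ p.1 ≠ φ p.2).card = c at *
  have hy0' : T ≤ (M + m) * M := hy0
  clear_value T
  have k1 : 2 * M * m ≤ c := by nlinarith
  have k2 : 9 * M * m < 2 * (M + m) ^ 2 := by nlinarith
  have k3 : 5 * (M + m) ^ 2 < 9 * ((M + m) * M) := by nlinarith
  have k4 : 5 * (M + m) < 9 * M := by nlinarith
  by_contra hcon
  push Not at hcon
  have k5 : M ≤ 2 * m := by omega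
  nlinarith

/-- **Homomorphism testing.** If `f (xy) = f x f y` fails for less than `2/9` of the pairs, then
there is a homomorphism `g` such that `f (xy) = g x f y` for more than `2/3` of the `y`, for every
`x`. -/
theorem blr (f : G → H) (hf : 9 * (badPairs f).card < 2 * (Fintype.card G) ^ 2) :
    ∃ g : G →* H, ∀ x, 2 * Fintype.card G <
      3 * (univ.filter fun y => f (x * y) = g x * f y).card := by
  classical
  choose g hg using plurality f hf
  have hmul : ∀ x x', g (x * x') = g x * g x' := by
    intro x x'
    set A := univ.filter fun y => f (x * (x' * y)) = g x * f (x' * y)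
    set B := univ.filter fun y => f (x' * y) = g x' * f y
    set C := univ.filter fun y => f (x * x' * y) = g (x * x') * f y
    have hA : 2 * Fintype.card G < 3 * A.card := by
      have : A.card = (univ.filter fun y => f (x * y) = g x * f y).card := by
        apply card_bij (fun y _ => x' * y)
        · intro a ha
          simpa [A] using ha
        · intro a _ b _ hab
          exact mul_left_cancel hab
        · intro b hb
          refine ⟨x'⁻¹ * b, ?_, by group⟩
          simpa [A] using hb
      rw [this]
      exact hg x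
    have hB : 2 * Fintype.card G < 3 * B.card := hg x'
    have hC : 2 * Fintype.card G < 3 * C.card := hg (x * x')
    have hne : (A ∩ B ∩ C).Nonempty := by
      rw [← card_pos]
      have h1 := card_union_add_card_inter A B
      have h2 := card_union_add_card_inter (A ∩ B) C
      have h3 : (A ∪ B).card ≤ Fintype.card G := card_le_univ _
      have h4 : (A ∩ B ∪ C).card ≤ Fintype.card G := card_le_univ _
      omega
    obtain ⟨y, hy⟩ := hne
    simp only [A, B, C, mem_inter, mem_filter, mem_univ, true_and] at hy
    obtain ⟨⟨h1, h2⟩, h3⟩ := hy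
    have : g (x * x') * f y = g x * g x' * f y := by
      rw [← h3, mul_assoc, h1, h2, mul_assoc]
    exact mul_right_cancel this
  exact ⟨MonoidHom.mk' g hmul, hg⟩

/-- the homomorphism close to `f` -/
theorem exists_good (f : G → H) :
    ∃ g : G →* H, (2 * (Fintype.card G) ^ 2 ≤ 9 * (badPairs f).card) ∨
      ∀ x, f x ≠ g x → 2 * Fintype.card G ≤
        3 * (univ.filter fun y => f x * f y ≠ f (x * y)).card := by
  classical
  by_cases hf : 9 * (badPairs f).card < 2 * (Fintype.card G) ^ 2
  · obtain ⟨g, hg⟩ := blr f hf
    refine ⟨g, Or.inr fun x hx => ?_⟩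
    refine (hg x).le.trans (Nat.mul_le_mul_left 3 (card_le_card ?_))
    intro y hy
    rw [mem_filter] at hy ⊢
    refine ⟨mem_univ _, fun h => hx ?_⟩
    rw [hy.2] at h
    exact mul_right_cancel h
  · exact ⟨1, Or.inl (not_lt.1 hf)⟩

omit [DecidableEq H] in
/-- **Stability in products of groups.** -/
theorem weighted {ι : Type*} [Fintype ι] (K : ι → Type*) [∀ i, Group (K i)] (w : ι → ℕ) (r : ℕ)
    (f : ∀ i, G → K i)
    (hf : ∀ x y, (∑ i, w i * (open Classical in if f i x * f i y ≠ f i (x * y) then 1 else 0)) ≤ r) :
    ∃ g : ∀ i, G →* K i, ∀ x,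
      (∑ i, w i * (open Classical in if f i x ≠ g i x then 1 else 0)) ≤ 6 * r := by
  classical
  choose g hg using fun i => exists_good (f i)
  refine ⟨g, fun x => ?_⟩
  set N := Fintype.card G with hN
  have hNpos : 0 < N := Fintype.card_pos
  set P : ι → Prop := fun i => 2 * N ^ 2 ≤ 9 * (badPairs (f i)).card
  -- first sum
  have h1 : 2 * (∑ i, w i * (if P i then 1 else 0)) ≤ 9 * r := by
    have e : N ^ 2 * (2 * (∑ i, w i * (if P i then 1 else 0))) ≤ N ^ 2 * (9 * r) := by
      calc N ^ 2 * (2 * (∑ i, w i * (if P i then 1 else 0)))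
          = ∑ i, w i * (if P i then 2 * N ^ 2 else 0) := by
            rw [mul_sum, mul_sum]
            refine sum_congr rfl fun i _ => ?_
            split_ifs <;> ring
        _ ≤ ∑ i, w i * (9 * (badPairs (f i)).card) := by
            refine sum_le_sum fun i _ => Nat.mul_le_mul_left _ ?_
            split_ifs with h
            · exact h
            · exact Nat.zero_le _
        _ = 9 * ∑ i, ∑ p : G × G, w i * (if f i p.1 * f i p.2 ≠ f i (p.1 * p.2) then 1 else 0) := by
            rw [mul_sum]
            refine sum_congr rfl fun i _ => ?_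
            rw [badPairs, card_filter, ← mul_sum]
            ring
        _ = 9 * ∑ p : G × G, ∑ i, w i * (if f i p.1 * f i p.2 ≠ f i (p.1 * p.2) then 1 else 0) := by
            rw [sum_comm]
        _ ≤ 9 * ∑ p : G × G, r := Nat.mul_le_mul_left _ (sum_le_sum fun p _ => hf p.1 p.2)
        _ = N ^ 2 * (9 * r) := by
            rw [sum_const, card_univ, Fintype.card_prod, smul_eq_mul]
            ring
    exact Nat.le_of_mul_le_mul_left e (by positivity)
  have h2 : 2 * (∑ i, w i * (if ¬ P i ∧ f i x ≠ g i x then 1 else 0)) ≤ 3 * r := by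
    have e : N * (2 * (∑ i, w i * (if ¬ P i ∧ f i x ≠ g i x then 1 else 0))) ≤ N * (3 * r) := by
      calc N * (2 * (∑ i, w i * (if ¬ P i ∧ f i x ≠ g i x then 1 else 0)))
          = ∑ i, w i * (if ¬ P i ∧ f i x ≠ g i x then 2 * N else 0) := by
            rw [mul_sum, mul_sum]
            refine sum_congr rfl fun i _ => ?_
            split_ifs <;> ring
        _ ≤ ∑ i, w i * (3 * (univ.filter fun y => f i x * f i y ≠ f i (x * y)).card) := by
            refine sum_le_sum fun i _ => Nat.mul_le_mul_left _ ?_
            split_ifs with h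
            · rcases hg i with h' | h'
              · exact absurd h' h.1
              · exact h' x h.2
            · exact Nat.zero_le _
        _ = 3 * ∑ i, ∑ y : G, w i * (if f i x * f i y ≠ f i (x * y) then 1 else 0) := by
            rw [mul_sum]
            refine sum_congr rfl fun i _ => ?_
            rw [card_filter, ← mul_sum]
            ring
        _ = 3 * ∑ y : G, ∑ i, w i * (if f i x * f i y ≠ f i (x * y) then 1 else 0) := by
            rw [sum_comm]
        _ ≤ 3 * ∑ y : G, r := Nat.mul_le_mul_left _ (sum_le_sum fun y _ => hf x y)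
        _ = N * (3 * r) := by
            rw [sum_const, card_univ, smul_eq_mul]
            ring
    exact Nat.le_of_mul_le_mul_left e hNpos
  have h3 : (∑ i, w i * (if f i x ≠ g i x then 1 else 0)) ≤
      (∑ i, w i * (if P i then 1 else 0)) +
        ∑ i, w i * (if ¬ P i ∧ f i x ≠ g i x then 1 else 0) := by
    rw [← sum_add_distrib]
    refine sum_le_sum fun i _ => ?_
    by_cases hP : P i <;> by_cases hx : f i x = g i x <;> simp [hP, hx]
  omega

end Pool.Agent.H13.Blr
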