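import Mathlib

/-!
# Additive labellings and the `11/6` argument of Katz and Tao
-/

namespace Pool.Agent.H13.Label

open Finset

section hoelder

variable {α β₁ β₂ β₃ : Type} [DecidableEq α] [DecidableEq β₁] [DecidableEq β₂] [DecidableEq β₃]

lemma sum_inv {α β : Type} [DecidableEq α] [DecidableEq β] (X : Finset α) (f : α → β) :
    ∑ v ∈ X, (1 : ℝ) / #{u ∈ X | f u = f v} = #(X.image f) := by
  rw [← Finset.sum_fiberwise_of_maps_to (g := f) (t := X.image f)
    (fun v hv => Finset.mem_image_of_mem f hv)]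
  rw [Finset.card_eq_sum_ones]
  push_cast
  apply Finset.sum_congr rfl
  intro y hy
  have h1 : ∀ v ∈ X.filter (fun v => f v = y),
      (1 : ℝ) / #{u ∈ X | f u = f v} = 1 / #{u ∈ X | f u = y} := by
    intro v hv
    rw [(Finset.mem_filter.1 hv).2]
  rw [Finset.sum_congr rfl h1, Finset.sum_const, nsmul_eq_mul]
  have h2 : (0 : ℝ) < #{u ∈ X | f u = y} := by
    obtain ⟨v, hv, rfl⟩ := Finset.mem_image.1 hy
    exact Nat.cast_pos.2 (Finset.card_pos.2 ⟨v, Finset.mem_filter.2 ⟨hv, rfl⟩⟩)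
  field_simp

/-- paths of length three -/
def paths (X : Finset α) (f₁ : α → β₁) (f₂ : α → β₂) (f₃ : α → β₃) : Finset ((α × α) × (α × α)) :=
  {t ∈ (X ×ˢ X) ×ˢ (X ×ˢ X) | f₁ t.1.1 = f₁ t.1.2 ∧ f₂ t.1.2 = f₂ t.2.1 ∧ f₃ t.2.1 = f₃ t.2.2}

lemma card_paths (X : Finset α) (f₁ : α → β₁) (f₂ : α → β₂) (f₃ : α → β₃) :
    (#(paths X f₁ f₂ f₃) : ℝ) = ∑ p ∈ (X ×ˢ X).filter (fun p => f₂ p.1 = f₂ p.2),
      (#{u ∈ X | f₁ u = f₁ p.1} : ℝ) * #{u ∈ X | f₃ u = f₃ p.2} := by
  have h1 : #(paths X f₁ f₂ f₃) = ∑ p ∈ (X ×ˢ X).filter (fun p => f₂ p.1 = f₂ p.2),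
      #((paths X f₁ f₂ f₃).filter (fun t => (t.1.2, t.2.1) = p)) := by
    apply Finset.card_eq_sum_card_fiberwise
    intro t ht
    simp only [paths, Finset.mem_coe, Finset.mem_filter, Finset.mem_product] at ht ⊢
    exact ⟨⟨ht.1.1.2, ht.1.2.1⟩, ht.2.2.1⟩
  rw [h1]
  push_cast
  apply Finset.sum_congr rfl
  intro p hp
  rw [← Nat.cast_mul, ← Finset.card_product]
  congr 1
  refine Finset.card_nbij' (fun t => (t.1.1, t.2.2)) (fun q => ((q.1, p.1), (p.2, q.2))) ?_ ?_ ?_ ?_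
  · intro t ht
    simp only [paths, Finset.mem_coe, Finset.mem_filter, Finset.mem_product] at ht ⊢
    obtain ⟨⟨h3, h4, h5, h6⟩, rfl⟩ := ht
    exact ⟨⟨h3.1.1, h4⟩, ⟨h3.2.2, h6.symm⟩⟩
  · intro q hq
    simp only [paths, Finset.mem_coe, Finset.mem_filter, Finset.mem_product] at hq hp ⊢
    exact ⟨⟨⟨⟨hq.1.1, hp.1.1⟩, ⟨hp.1.2, hq.2.1⟩⟩, hq.1.2, hp.2, hq.2.2.symm⟩, trivial⟩
  · intro t ht
    simp only [Finset.mem_coe, Finset.mem_filter] at ht
    obtain ⟨_, rfl⟩ := ht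
    rfl
  · intro q _
    rfl

lemma four (X : Finset α) (f₁ : α → β₁) (f₂ : α → β₂) (f₃ : α → β₃) :
    (#X : ℝ) ^ 4 ≤ #(paths X f₁ f₂ f₃) * #(X.image f₁) * #(X.image f₂) * #(X.image f₃) := by
  classical
  set Q := (X ×ˢ X).filter (fun p => f₂ p.1 = f₂ p.2) with hQ
  let D₁ : α → ℝ := fun v => #{u ∈ X | f₁ u = f₁ v}
  let D₂ : α → ℝ := fun v => #{u ∈ X | f₂ u = f₂ v}
  let D₃ : α → ℝ := fun v => #{u ∈ X | f₃ u = f₃ v}
  have p1 : ∀ v ∈ X, 0 < D₁ v := fun v hv => by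
    simp only [D₁]; exact Nat.cast_pos.2 (Finset.card_pos.2 ⟨v, Finset.mem_filter.2 ⟨hv, rfl⟩⟩)
  have p2 : ∀ v ∈ X, 0 < D₂ v := fun v hv => by
    simp only [D₂]; exact Nat.cast_pos.2 (Finset.card_pos.2 ⟨v, Finset.mem_filter.2 ⟨hv, rfl⟩⟩)
  have p3 : ∀ v ∈ X, 0 < D₃ v := fun v hv => by
    simp only [D₃]; exact Nat.cast_pos.2 (Finset.card_pos.2 ⟨v, Finset.mem_filter.2 ⟨hv, rfl⟩⟩)
  have hQ1 : ∀ p ∈ Q, p.1 ∈ X ∧ p.2 ∈ X ∧ f₂ p.1 = f₂ p.2 := by
    intro p hp
    simp only [hQ, Finset.mem_filter, Finset.mem_product] at hp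
    exact ⟨hp.1.1, hp.1.2, hp.2⟩
  have hD : ∀ p ∈ Q, D₂ p.2 = D₂ p.1 := by
    intro p hp
    simp only [D₂]
    rw [(hQ1 p hp).2.2]
  -- sums over `Q`
  have left : ∀ φ : α → ℝ, ∑ p ∈ Q, φ p.1 / D₂ p.1 = ∑ v ∈ X, φ v := by
    intro φ
    rw [hQ, Finset.sum_filter, Finset.sum_product]
    apply Finset.sum_congr rfl
    intro v hv
    simp only
    rw [← Finset.sum_filter, Finset.sum_const, nsmul_eq_mul]
    have : (#{u ∈ X | f₂ v = f₂ u} : ℝ) = D₂ v := by
      simp only [D₂]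
      congr 2
      ext u
      simp [eq_comm]
    rw [this]
    field_simp [(p2 v hv).ne']
  have right : ∀ φ : α → ℝ, ∑ p ∈ Q, φ p.2 / D₂ p.1 = ∑ v ∈ X, φ v := by
    intro φ
    have h1 : ∑ p ∈ Q, φ p.2 / D₂ p.1 = ∑ p ∈ Q, φ p.2 / D₂ p.2 :=
      Finset.sum_congr rfl fun p hp => by rw [hD p hp]
    rw [h1, hQ, Finset.sum_filter, Finset.sum_product_right]
    apply Finset.sum_congr rfl
    intro v hv
    simp only
    rw [← Finset.sum_filter, Finset.sum_const, nsmul_eq_mul]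
    have : (#{u ∈ X | f₂ u = f₂ v} : ℝ) = D₂ v := rfl
    rw [this]
    field_simp [(p2 v hv).ne']
  have s0 : ∑ p ∈ Q, 1 / D₂ p.1 = (#X : ℝ) := by
    have := left (fun _ => 1)
    simpa using this
  have s1 : ∑ p ∈ Q, 1 / D₁ p.1 / D₂ p.1 = #(X.image f₁) := by
    rw [left (fun v => 1 / D₁ v)]; exact sum_inv X f₁
  have s2 : ∑ p ∈ Q, 1 / D₂ p.1 / D₂ p.1 = #(X.image f₂) := by
    rw [left (fun v => 1 / D₂ v)]; exact sum_inv X f₂
  have s3 : ∑ p ∈ Q, 1 / D₃ p.2 / D₂ p.1 = #(X.image f₃) := by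
    rw [right (fun v => 1 / D₃ v)]; exact sum_inv X f₃
  have s4 : ∑ p ∈ Q, D₁ p.1 * D₃ p.2 = #(paths X f₁ f₂ f₃) := (card_paths X f₁ f₂ f₃).symm
  -- Cauchy-Schwarz
  have c1 : (∑ p ∈ Q, 1 / D₂ p.1) ^ 2 ≤ (∑ p ∈ Q, √(D₂ p.1 * D₃ p.2) / D₂ p.1) *
      ∑ p ∈ Q, 1 / (√(D₂ p.1 * D₃ p.2) * D₂ p.1) := by
    apply Finset.sum_sq_le_sum_mul_sum_of_sq_eq_mul
    · intro p hp
      have := p2 p.1 (hQ1 p hp).1
      positivity
    · intro p hp
      have := p2 p.1 (hQ1 p hp).1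
      positivity
    · intro p hp
      have h2 := p2 p.1 (hQ1 p hp).1
      have h3 := p3 p.2 (hQ1 p hp).2.1
      have h4 : 0 < √(D₂ p.1 * D₃ p.2) := Real.sqrt_pos.2 (mul_pos h2 h3)
      field_simp
  have c2 : (∑ p ∈ Q, √(D₂ p.1 * D₃ p.2) / D₂ p.1) ^ 2 ≤ (∑ p ∈ Q, D₁ p.1 * D₃ p.2) *
      ∑ p ∈ Q, 1 / D₁ p.1 / D₂ p.1 := by
    apply Finset.sum_sq_le_sum_mul_sum_of_sq_eq_mul
    · intro p hp
      exact (mul_pos (p1 p.1 (hQ1 p hp).1) (p3 p.2 (hQ1 p hp).2.1)).le
    · intro p hp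
      have := p2 p.1 (hQ1 p hp).1
      have := p1 p.1 (hQ1 p hp).1
      positivity
    · intro p hp
      have h1 := p1 p.1 (hQ1 p hp).1
      have h2 := p2 p.1 (hQ1 p hp).1
      have h3 := p3 p.2 (hQ1 p hp).2.1
      rw [div_pow, Real.sq_sqrt (mul_pos h2 h3).le]
      field_simp
  have c3 : (∑ p ∈ Q, 1 / (√(D₂ p.1 * D₃ p.2) * D₂ p.1)) ^ 2 ≤
      (∑ p ∈ Q, 1 / D₂ p.1 / D₂ p.1) * ∑ p ∈ Q, 1 / D₃ p.2 / D₂ p.1 := by
    apply Finset.sum_sq_le_sum_mul_sum_of_sq_eq_mul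
    · intro p hp
      have := p2 p.1 (hQ1 p hp).1
      positivity
    · intro p hp
      have := p2 p.1 (hQ1 p hp).1
      have := p3 p.2 (hQ1 p hp).2.1
      positivity
    · intro p hp
      have h2 := p2 p.1 (hQ1 p hp).1
      have h3 := p3 p.2 (hQ1 p hp).2.1
      rw [div_pow, mul_pow, Real.sq_sqrt (mul_pos h2 h3).le]
      field_simp
  rw [s0] at c1
  rw [s4, s1] at c2
  rw [s2, s3] at c3
  set u := ∑ p ∈ Q, √(D₂ p.1 * D₃ p.2) / D₂ p.1
  set w := ∑ p ∈ Q, 1 / (√(D₂ p.1 * D₃ p.2) * D₂ p.1)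
  calc (#X : ℝ) ^ 4 = ((#X : ℝ) ^ 2) ^ 2 := by ring
    _ ≤ (u * w) ^ 2 := pow_le_pow_left₀ (by positivity) c1 2
    _ = u ^ 2 * w ^ 2 := mul_pow _ _ _
    _ ≤ (#(paths X f₁ f₂ f₃) * #(X.image f₁)) * (#(X.image f₂) * #(X.image f₃)) :=
        mul_le_mul c2 c3 (sq_nonneg _) (by positivity)
    _ = _ := by ring

end hoelder

section main

variable {H Γ : Type} [AddCommGroup H] [Fintype H] [DecidableEq H] [Group Γ]

/-- pairs of points of `A` with the same second coordinate -/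
def seg (A : Finset (H × H)) : Finset (H × H × H) :=
  {v | (v.2.1, v.1) ∈ A ∧ (v.2.2, v.1) ∈ A}

omit [AddCommGroup H] in
lemma card_seg (A : Finset (H × H)) :
    (#A : ℝ) ^ 2 ≤ Fintype.card H * #(seg A) := by
  have h1 : #A = ∑ y : H, #{x : H | (x, y) ∈ A} := by
    rw [Finset.card_eq_sum_card_fiberwise (f := fun p : H × H => p.2) (t := univ)
      (fun _ _ => by simp)]
    apply Finset.sum_congr rfl
    intro y _
    refine Finset.card_nbij' (fun p => p.1) (fun x => (x, y)) ?_ ?_ ?_ ?_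
    · intro p hp
      simp only [Finset.coe_filter, Set.mem_ofPred_eq, Finset.mem_univ, true_and] at hp ⊢
      rw [← hp.2]; exact hp.1
    · intro x hx
      simp only [Finset.coe_filter, Set.mem_ofPred_eq, Finset.mem_univ, true_and] at hx ⊢
      exact ⟨hx, trivial⟩
    · intro p hp
      simp only [Finset.coe_filter, Set.mem_ofPred_eq] at hp
      rw [← hp.2]
    · intro x _
      rfl
  have h2 : #(seg A) = ∑ y : H, #{x : H | (x, y) ∈ A} ^ 2 := by
    rw [Finset.card_eq_sum_card_fiberwise (f := fun p : H × H × H => p.1) (t := univ)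
      (fun _ _ => by simp)]
    apply Finset.sum_congr rfl
    intro y _
    rw [sq, ← Finset.card_product]
    refine Finset.card_nbij' (fun p => p.2) (fun x => (y, x)) ?_ ?_ ?_ ?_
    · intro p hp
      simp only [seg, Finset.coe_filter, Set.mem_ofPred_eq, Finset.mem_univ, true_and,
        Finset.mem_filter, Finset.mem_coe, Finset.mem_product] at hp ⊢
      rw [← hp.2]; exact hp.1
    · intro x hx
      simp only [seg, Finset.coe_filter, Set.mem_ofPred_eq, Finset.mem_univ, true_and,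
        Finset.mem_filter, Finset.mem_coe, Finset.mem_product] at hx ⊢
      exact ⟨hx, trivial⟩
    · intro p hp
      simp only [Finset.coe_filter, Set.mem_ofPred_eq] at hp
      rw [← hp.2]
    · intro x _
      rfl
  rw [h1, h2]
  push_cast
  have key := Finset.sum_mul_sq_le_sq_mul_sq (univ : Finset H) (fun _ => (1 : ℝ))
    (fun y => (#{x : H | (x, y) ∈ A} : ℝ))
  simpa using key

variable (h2 : ∀ x : H, x + x = 0)

include h2 in
/-- Every set `A ⊆ H²` with `a (x) b (y) = c (x + y)` on `A` has `|A|^6 ≤ K |H|^11` if every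
equation `(b (y) m)^2 = h` has at most `K` solutions `y`. -/
theorem main (A : Finset (H × H)) (a b c : H → Γ)
    (hA : ∀ x y, (x, y) ∈ A → a x * b y = c (x + y)) (K : ℕ)
    (hK : ∀ m h : Γ, Set.ncard {y : H | (b y * m) ^ 2 = h} ≤ K) :
    (#A : ℝ) ^ 6 ≤ K * (Fintype.card H : ℝ) ^ 11 := by
  classical
  set N : ℝ := (Fintype.card H : ℝ) with hN
  set X := seg A with hX
  let f₁ : H × H × H → H × H := fun v => (v.2.1, v.2.2)
  let f₂ : H × H × H → H × H := fun v => (v.2.1 + v.1, v.2.2 + v.1)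
  let f₃ : H × H × H → H × H := fun v => (v.2.1, v.2.2 + v.1)
  have im : ∀ f : H × H × H → H × H, (#(X.image f) : ℝ) ≤ N ^ 2 := by
    intro f
    have : #(X.image f) ≤ Fintype.card (H × H) := Finset.card_le_univ _
    rw [Fintype.card_prod] at this
    rw [hN, sq]
    exact_mod_cast this
  have hmem : ∀ v ∈ X, (v.2.1, v.1) ∈ A ∧ (v.2.2, v.1) ∈ A := by
    intro v hv
    simpa [hX, seg] using hv
  have cancel : ∀ x y z : H, x + y = z → x = z + y := by
    intro x y z h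
    rw [← h, add_assoc, h2, add_zero]
  -- upper bound for the number of paths
  have up : #(paths X f₁ f₂ f₃) ≤ K * (#X * Fintype.card H ^ 2) := by
    let g : ((H × H × H) × (H × H × H)) × ((H × H × H) × (H × H × H)) → (H × H × H) × (H × H) :=
      fun t => (t.1.1, (t.2.1.1, t.2.2.2.1 + t.2.2.1))
    have c1 : #(paths X f₁ f₂ f₃) ≤ K * #((paths X f₁ f₂ f₃).image g) := by
      apply Finset.card_le_mul_card_image
      intro q hq
      -- facts on a path
      have facts : ∀ t ∈ paths X f₁ f₂ f₃, g t = q →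
          t.1.1 = q.1 ∧ t.2.1.1 = q.2.1 ∧
          t.2.2.2.2 = q.2.1 + q.2.2 + (q.1.2.1 + q.1.2.2) ∧
          (b t.2.2.1 * (b q.2.1)⁻¹) ^ 2 = (a (q.2.1 + q.2.2 + (q.1.2.1 + q.1.2.2)))⁻¹ *
            a q.1.2.2 * (a q.1.2.1)⁻¹ * c q.2.2 * (b q.2.1)⁻¹ ∧
          t.2.2.2.1 = q.2.2 + t.2.2.1 ∧
          t.2.1.2.1 = t.2.2.2.1 ∧
          t.2.1.2.2 = t.2.2.2.2 + t.2.2.1 + t.2.1.1 ∧
          t.1.2.2.1 = t.1.1.2.1 ∧ t.1.2.2.2 = t.1.1.2.2 ∧
          t.1.2.1 = t.2.1.2.1 + t.2.1.1 + t.1.1.2.1 := by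
        rintro ⟨⟨⟨y0, x0, x0'⟩, ⟨y1, x1, x1'⟩⟩, ⟨⟨y2, x2, x2'⟩, ⟨y3, x3, x3'⟩⟩⟩ ht hg
        simp only [paths, Finset.mem_filter, Finset.mem_product] at ht
        obtain ⟨⟨⟨m0, m1⟩, ⟨m2, m3⟩⟩, e1, e2, e3⟩ := ht
        have m0 := hmem _ m0
        have m1 := hmem _ m1
        have m2 := hmem _ m2
        have m3 := hmem _ m3
        simp only [f₁, f₂, f₃, Prod.mk.injEq] at e1 e2 e3 m0 m1 m2 m3
        obtain ⟨q1, q2, q3⟩ := q
        simp only [g, Prod.mk.injEq] at hg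
        obtain ⟨hg1, hg2, hg3⟩ := hg
        subst hg1 hg2 hg3
        obtain ⟨e11, e12⟩ := e1
        obtain ⟨e21, e22⟩ := e2
        obtain ⟨e31, e32⟩ := e3
        subst e11 e12 e31
        simp only at *
        -- labels
        have l1 := hA _ _ m1.1
        have l1' := hA _ _ m1.2
        have l2 := hA _ _ m2.1
        have l3 := hA _ _ m3.1
        have l3' := hA _ _ m3.2
        rw [e21] at l1
        rw [e22] at l1'
        rw [← e32] at l3'
        have hx3' : x3' = y2 + (x2 + y3) + (x0 + x0') := by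
          have i1 : x2 + y2 = x0 + y1 := e21.symm
          have i2 : x2' + y2 = x0' + y1 := e22.symm
          have i3 : x3' = x2' + y2 + y3 := cancel _ _ _ e32.symm
          rw [i3, i2]
          have i4 : y1 = x0 + (x2 + y2) := by
            rw [i1, ← add_assoc, h2, zero_add]
          rw [i4]
          abel
        refine ⟨trivial, trivial, hx3', ?_, ?_, trivial, ?_, trivial, trivial, ?_⟩
        · rw [← hx3', ← l3, sq]
          have k1 : c (x2' + y2) = a x0' * (a x0)⁻¹ * c (x2 + y2) := by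
            rw [← l1, ← l1']; group
          have k2 : b y3 = (a x3')⁻¹ * c (x2' + y2) := by
            rw [← l3']; group
          calc b y3 * (b y2)⁻¹ * (b y3 * (b y2)⁻¹)
              = (a x3')⁻¹ * c (x2' + y2) * (b y2)⁻¹ * b y3 * (b y2)⁻¹ := by
                nth_rewrite 1 [k2]; group
            _ = (a x3')⁻¹ * (a x0' * (a x0)⁻¹ * (a x2 * b y2)) * (b y2)⁻¹ * b y3 * (b y2)⁻¹ := by
                rw [k1, l2]
            _ = _ := by group
        · rw [add_assoc, h2, add_zero]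
        · rw [← e32, add_assoc, h2, add_zero]
        · have i1 : x2 + y2 = x0 + y1 := e21.symm
          rw [i1, add_comm x0 y1, add_assoc, h2, add_zero]
      have c2 : #{t ∈ paths X f₁ f₂ f₃ | g t = q} ≤
          Set.ncard {y : H | (b y * (b q.2.1)⁻¹) ^ 2 =
            (a (q.2.1 + q.2.2 + (q.1.2.1 + q.1.2.2)))⁻¹ *
            a q.1.2.2 * (a q.1.2.1)⁻¹ * c q.2.2 * (b q.2.1)⁻¹} := by
        rw [Set.ncard_eq_toFinset_card']
        apply Finset.card_le_card_of_injOn (fun t => t.2.2.1)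
        · intro t ht
          simp only [Finset.coe_filter, Set.mem_ofPred_eq] at ht
          simp only [Finset.mem_coe, Set.mem_toFinset, Set.mem_ofPred_eq]
          exact (facts t ht.1 ht.2).2.2.2.1
        · intro t ht t' ht' hy
          simp only [Finset.coe_filter, Set.mem_ofPred_eq] at ht ht'
          obtain ⟨r1, r2, r3, -, r5, r6, r7, r8, r9, r10⟩ := facts t ht.1 ht.2
          obtain ⟨s1, s2, s3, -, s5, s6, s7, s8, s9, s10⟩ := facts t' ht'.1 ht'.2
          obtain ⟨⟨⟨y0, x0, x0'⟩, ⟨y1, x1, x1'⟩⟩, ⟨⟨y2, x2, x2'⟩, ⟨y3, x3, x3'⟩⟩⟩ := t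
          obtain ⟨⟨⟨w0, u0, u0'⟩, ⟨w1, u1, u1'⟩⟩, ⟨⟨w2, u2, u2'⟩, ⟨w3, u3, u3'⟩⟩⟩ := t'
          simp only at r1 r2 r3 r5 r6 r7 r8 r9 r10 s1 s2 s3 s5 s6 s7 s8 s9 s10 hy
          have z0 := r1.trans s1.symm
          simp only [Prod.mk.injEq] at z0
          obtain ⟨z01, z02, z03⟩ := z0
          subst z01 z02 z03 hy
          have z2 : y2 = w2 := r2.trans s2.symm
          subst z2
          have z3 : x3' = u3' := r3.trans s3.symm
          subst z3
          have z4 : x3 = u3 := r5.trans s5.symm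
          subst z4
          have z5 : x2 = u2 := r6.trans s6.symm
          subst z5
          have z6 : x2' = u2' := r7.trans s7.symm
          subst z6
          have z7 : x1 = u1 := r8.trans s8.symm
          have z8 : x1' = u1' := r9.trans s9.symm
          have z9 : y1 = w1 := r10.trans s10.symm
          subst z7 z8 z9
          rfl
      exact c2.trans (hK _ _)
    refine c1.trans (Nat.mul_le_mul_left K ?_)
    have c3 : (paths X f₁ f₂ f₃).image g ⊆ X ×ˢ (univ : Finset (H × H)) := by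
      intro q hq
      obtain ⟨t, ht, rfl⟩ := Finset.mem_image.1 hq
      simp only [paths, Finset.mem_filter, Finset.mem_product] at ht
      simp only [g, Finset.mem_product, Finset.mem_univ, and_true]
      exact ht.1.1.1
    refine (Finset.card_le_card c3).trans ?_
    rw [Finset.card_product, Finset.card_univ, Fintype.card_prod, sq]
  have low := four X f₁ f₂ f₃
  have hN0 : 0 ≤ N := by positivity
  have up' : (#(paths X f₁ f₂ f₃) : ℝ) ≤ K * (#X * N ^ 2) := by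
    rw [hN]; exact_mod_cast up
  have h4 : (#X : ℝ) ^ 4 ≤ (K * (#X * N ^ 2)) * N ^ 2 * N ^ 2 * N ^ 2 := by
    refine low.trans ?_
    gcongr
    · exact im f₁
    · exact im f₂
    · exact im f₃
  have h5 : (#X : ℝ) ^ 3 ≤ K * N ^ 8 := by
    rcases Nat.eq_zero_or_pos #X with h0 | h0
    · rw [h0]
      simp only [Nat.cast_zero]
      rw [zero_pow (by norm_num)]
      positivity
    · have hx : (0 : ℝ) < #X := by exact_mod_cast h0
      have : (#X : ℝ) * (#X : ℝ) ^ 3 ≤ #X * (K * N ^ 8) := by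
        calc (#X : ℝ) * (#X : ℝ) ^ 3 = (#X : ℝ) ^ 4 := by ring
          _ ≤ _ := h4
          _ = _ := by ring
      exact le_of_mul_le_mul_left this hx
  have h6 : (#A : ℝ) ^ 2 ≤ N * #X := card_seg A
  calc (#A : ℝ) ^ 6 = ((#A : ℝ) ^ 2) ^ 3 := by ring
    _ ≤ (N * #X) ^ 3 := pow_le_pow_left₀ (by positivity) h6 3
    _ = N ^ 3 * (#X : ℝ) ^ 3 := by ring
    _ ≤ N ^ 3 * (K * N ^ 8) := by gcongr
    _ = _ := by ring

/-- every equation `(a (x) m)^2 = h` has at most `K` solutions `x` -/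
def SqFib (K : ℕ) (a : H → Γ) : Prop := ∀ m h : Γ, Set.ncard {x : H | (a x * m) ^ 2 = h} ≤ K

lemma sqFib_inv {K : ℕ} {a : H → Γ} (h : SqFib K a) : SqFib K (fun x => (a x)⁻¹) := by
  intro m k
  refine le_of_eq_of_le ?_ (h m⁻¹ (m * k⁻¹ * m⁻¹))
  congr 1
  ext x
  simp only [Set.mem_setOf_eq, sq]
  constructor
  · intro e
    rw [← e]; group
  · intro e
    have : k = m⁻¹ * (a x * m⁻¹ * (a x * m⁻¹))⁻¹ * m := by rw [e]; group
    rw [this]; group

include h2 in
/-- The same with `M` values of `a (x) b (y) c (x + y)⁻¹` on `A`. -/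
theorem main_values (A : Finset (H × H)) (a b c : H → Γ) (M : ℕ)
    (hM : Set.ncard ((fun p : H × H => a p.1 * b p.2 * (c (p.1 + p.2))⁻¹) '' A) ≤ M) (K : ℕ)
    (hK : SqFib K a ∨ SqFib K b ∨ SqFib K c) :
    (#A : ℝ) ^ 6 ≤ M ^ 6 * K * (Fintype.card H : ℝ) ^ 11 := by
  classical
  set s : H × H → Γ := fun p => a p.1 * b p.2 * (c (p.1 + p.2))⁻¹ with hs
  have hM' : #(A.image s) ≤ M := by
    rw [← Set.ncard_coe_finset, Finset.coe_image]
    exact hM
  rcases A.eq_empty_or_nonempty with rfl | hne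
  · simp only [Finset.card_empty, Nat.cast_zero]
    rw [zero_pow (by norm_num)]
    positivity
  obtain ⟨t, ht, hle⟩ : ∃ t ∈ A.image s, #A ≤ M * #(A.filter fun p => s p = t) := by
    by_contra hcon
    push Not at hcon
    have h1 : #A = ∑ t ∈ A.image s, #(A.filter fun p => s p = t) :=
      Finset.card_eq_sum_card_fiberwise fun p hp => Finset.mem_image_of_mem s hp
    have h3 : M * #A < #(A.image s) * #A := by
      calc M * #A = ∑ t ∈ A.image s, M * #(A.filter fun p => s p = t) := by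
            rw [← Finset.mul_sum, ← h1]
        _ < ∑ t ∈ A.image s, #A := Finset.sum_lt_sum_of_nonempty (hne.image s) hcon
        _ = #(A.image s) * #A := by rw [Finset.sum_const, smul_eq_mul]
    have h4 : #(A.image s) * #A ≤ M * #A := Nat.mul_le_mul_right _ hM'
    omega
  set B := A.filter fun p => s p = t with hB
  have rel : ∀ x y, (x, y) ∈ B → a x * b y = t * c (x + y) := by
    intro x y hxy
    have h5 := (Finset.mem_filter.1 hxy).2
    simp only [hs] at h5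
    rw [← h5]; group
  have key : (#B : ℝ) ^ 6 ≤ K * (Fintype.card H : ℝ) ^ 11 := by
    rcases hK with hK | hK | hK
    · have h6 := main h2 (B.map (Equiv.prodComm H H).toEmbedding) (fun y => (b y)⁻¹)
        (fun x => (a x)⁻¹) (fun z => (c z)⁻¹ * t⁻¹) (by
          intro y x hyx
          have h7 : (x, y) ∈ B := by
            rw [Finset.mem_map] at hyx
            obtain ⟨⟨p, q⟩, hp, hq⟩ := hyx
            simp only [Equiv.coe_toEmbedding, Equiv.prodComm_apply, Prod.swap_prod_mk,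
              Prod.mk.injEq] at hq
            rw [← hq.1, ← hq.2]; exact hp
          have h8 := rel x y h7
          rw [← mul_inv_rev, h8, mul_inv_rev, add_comm x y]) K (sqFib_inv hK)
      rwa [Finset.card_map] at h6
    · exact main h2 B a b (fun z => t * c z) rel K hK
    · have hinj : Function.Injective (fun p : H × H => (p.1, p.1 + p.2)) := by
        rintro ⟨x, y⟩ ⟨x', y'⟩ h
        simp only [Prod.mk.injEq] at h
        obtain ⟨rfl, h9⟩ := h
        rw [add_left_cancel h9]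
      have h6 := main h2 (B.map ⟨fun p : H × H => (p.1, p.1 + p.2), hinj⟩) (fun x => (a x)⁻¹ * t)
        c b (by
          intro x z hxz
          rw [Finset.mem_map] at hxz
          obtain ⟨⟨p, q⟩, hp, hq⟩ := hxz
          simp only [Function.Embedding.coeFn_mk, Prod.mk.injEq] at hq
          obtain ⟨rfl, rfl⟩ := hq
          have h8 := rel _ _ hp
          rw [← add_assoc, h2, zero_add, mul_assoc, ← h8]; group) K hK
      rwa [Finset.card_map] at h6
  have hle' : (#A : ℝ) ≤ M * #B := by exact_mod_cast hle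
  calc (#A : ℝ) ^ 6 ≤ (M * #B) ^ 6 :=
        pow_le_pow_left₀ (by positivity) hle' 6
    _ = M ^ 6 * (#B : ℝ) ^ 6 := by ring
    _ ≤ M ^ 6 * (K * (Fintype.card H : ℝ) ^ 11) := by gcongr
    _ = _ := by ring

end main

end Pool.Agent.H13.Label
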