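import Mathlib

/-!
# Polynomial maps of degree less than `p`
-/

set_option autoImplicit false

namespace Pool.Agent.H13.PolyMap

open Finset MvPolynomial

variable {F : Type*} [Field F]

lemma eval_smul_hom {m : ℕ} (φ : MvPolynomial (Fin m) F) (k : ℕ) (t : F) (x : Fin m → F) :
    eval (t • x) (homogeneousComponent k φ) = t ^ k * eval x (homogeneousComponent k φ) := by
  rw [homogeneousComponent_apply, map_sum, map_sum, mul_sum]
  refine sum_congr rfl fun d hd => ?_
  rw [mem_filter] at hd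
  rw [eval_monomial, eval_monomial]
  have : (d.prod fun i e => (t • x) i ^ e) = t ^ k * d.prod fun i e => x i ^ e := by
    have hk : ∑ i ∈ d.support, d i = k := hd.2
    rw [Finsupp.prod, Finsupp.prod, ← hk, ← prod_pow_eq_pow_sum, ← prod_mul_distrib]
    refine prod_congr rfl fun i _ => ?_
    rw [Pi.smul_apply, smul_eq_mul, mul_pow]
  rw [this]
  ring

lemma eval_add_hom {m : ℕ} (φ : MvPolynomial (Fin m) F) (x y : Fin m → F) :
    eval (x + y) (homogeneousComponent 1 φ) =
      eval x (homogeneousComponent 1 φ) + eval y (homogeneousComponent 1 φ) := by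
  rw [homogeneousComponent_apply, map_sum, map_sum, map_sum, ← sum_add_distrib]
  refine sum_congr rfl fun d hd => ?_
  rw [mem_filter] at hd
  obtain ⟨a, rfl⟩ := (Finsupp.sum_eq_one_iff d).1 hd.2
  rw [eval_monomial, eval_monomial, eval_monomial]
  simp [mul_add]

lemma eval_sum_hom {m : ℕ} (φ : MvPolynomial (Fin m) F) (d : ℕ) (h : φ.totalDegree ≤ d)
    (x : Fin m → F) : eval x φ = ∑ k ∈ range (d + 1), eval x (homogeneousComponent k φ) := by
  rw [← map_sum]
  congr 1
  conv_lhs => rw [← sum_homogeneousComponent φ]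
  apply sum_subset
  · intro k hk
    rw [mem_range] at hk ⊢
    omega
  · intro k _ hk
    rw [mem_range, not_lt] at hk
    exact homogeneousComponent_eq_zero _ _ (by omega)

/-- a combination of evaluations that isolates the components of degree different from one -/
lemma exists_coeff (p : ℕ) [Fact p.Prime] (d : ℕ) (h1 : 1 ≤ d) (hd : d < p) :
    ∃ c : Fin d → ZMod p, ∀ k ≤ d, k ≠ 1 →
      ∑ i : Fin d, c i * ((1 + (i : ℕ) : ZMod p) ^ k - 1 - (i : ℕ) ^ k) = 1 := by
  -- coefficients of `(1 + T)^k - 1 - T^k`, `k = 0` or `k = j + 1`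
  let C : Matrix (Fin d) (Fin d) (ZMod p) := fun j l =>
    if (j : ℕ) = 0 then (if (l : ℕ) = 0 then -1 else 0)
    else (if 1 ≤ (l : ℕ) ∧ (l : ℕ) ≤ j then (Nat.choose (j + 1) l : ZMod p) else 0)
  let v : Fin d → ZMod p := fun i => ((i : ℕ) : ZMod p)
  let M : Matrix (Fin d) (Fin d) (ZMod p) := C * (Matrix.vandermonde v).transpose
  have hC : C.det ≠ 0 := by
    rw [Matrix.det_of_isLowerTriangular C (by
      intro i j hij
      have hij' : (i : ℕ) < j := hij
      show (if (i : ℕ) = 0 then (if (j : ℕ) = 0 then (-1 : ZMod p) else 0)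
        else (if 1 ≤ (j : ℕ) ∧ (j : ℕ) ≤ i then (Nat.choose (i + 1) j : ZMod p) else 0)) = 0
      have e1 : ¬ (j : ℕ) = 0 := by omega
      have e2 : ¬ (1 ≤ (j : ℕ) ∧ (j : ℕ) ≤ i) := by omega
      rw [if_neg e1, if_neg e2, ite_self])]
    rw [Finset.prod_ne_zero_iff]
    intro i _
    show (if (i : ℕ) = 0 then (if (i : ℕ) = 0 then (-1 : ZMod p) else 0)
        else (if 1 ≤ (i : ℕ) ∧ (i : ℕ) ≤ i then (Nat.choose (i + 1) i : ZMod p) else 0)) ≠ 0
    by_cases hi : (i : ℕ) = 0
    · rw [if_pos hi, if_pos hi]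
      exact neg_ne_zero.2 one_ne_zero
    · rw [if_neg hi, if_pos ⟨by omega, le_rfl⟩, Nat.choose_succ_self_right]
      rw [Ne, ZMod.natCast_eq_zero_iff]
      intro hdiv
      have := Nat.le_of_dvd (by omega) hdiv
      have := i.2
      omega
  have hV : (Matrix.vandermonde v).det ≠ 0 := by
    rw [Matrix.det_vandermonde_ne_zero_iff]
    intro i j hij
    have hij' : ((i : ℕ) : ZMod p) = ((j : ℕ) : ZMod p) := hij
    rw [ZMod.natCast_eq_natCast_iff'] at hij'
    have hi := i.2
    have hj := j.2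
    rw [Nat.mod_eq_of_lt (by omega), Nat.mod_eq_of_lt (by omega)] at hij'
    exact Fin.ext hij'
  have hM : IsUnit M.det := by
    rw [Matrix.det_mul, Matrix.det_transpose]
    exact (mul_ne_zero hC hV).isUnit
  have hMij : ∀ j i : Fin d, M j i = if (j : ℕ) = 0 then -1 else
      (1 + (i : ℕ) : ZMod p) ^ ((j : ℕ) + 1) - 1 - (i : ℕ) ^ ((j : ℕ) + 1) := by
    intro j i
    show ∑ l, C j l * (i : ℕ) ^ (l : ℕ) = _
    have e : ∑ l, C j l * (i : ℕ) ^ (l : ℕ) = ∑ l ∈ range d,
      (if (j : ℕ) = 0 then (if l = 0 then (-1 : ZMod p) else 0)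
        else (if 1 ≤ l ∧ l ≤ j then (Nat.choose (j + 1) l : ZMod p) else 0)) * (i : ℕ) ^ l := by
      rw [Finset.sum_range]
    rw [e]
    by_cases hj : (j : ℕ) = 0
    · simp only [hj, if_true]
      rw [Finset.sum_eq_single 0]
      · simp
      · intro b _ hb
        simp [hb]
      · intro h
        exact absurd (mem_range.2 (by omega)) h
    · simp only [hj, if_false]
      have e2 : ∑ l ∈ range d, (if 1 ≤ l ∧ l ≤ (j : ℕ) then (Nat.choose (j + 1) l : ZMod p) else 0)
          * (i : ℕ) ^ l = ∑ l ∈ Finset.Icc 1 (j : ℕ), (Nat.choose (j + 1) l : ZMod p) * (i : ℕ) ^ l := by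
        have hsub : Finset.Icc 1 (j : ℕ) ⊆ range d := by
          intro l hl
          rw [mem_Icc] at hl
          rw [mem_range]
          have := j.2
          omega
        rw [← Finset.sum_subset hsub]
        · refine Finset.sum_congr rfl fun l hl => ?_
          rw [mem_Icc] at hl
          rw [if_pos hl]
        · intro l _ hl
          rw [mem_Icc] at hl
          rw [if_neg hl, zero_mul]
      rw [e2]
      have e3 : (1 + (i : ℕ) : ZMod p) ^ ((j : ℕ) + 1) =
          ∑ l ∈ range ((j : ℕ) + 2), (Nat.choose (j + 1) l : ZMod p) * (i : ℕ) ^ l := by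
        rw [add_comm, add_pow]
        refine Finset.sum_congr rfl fun l _ => ?_
        rw [one_pow]
        ring
      rw [e3, Finset.sum_range_succ, Finset.range_eq_Ico, Finset.sum_eq_sum_Ico_succ_bot (by omega)]
      have e4 : Finset.Ico (0 + 1) ((j : ℕ) + 1) = Finset.Icc 1 (j : ℕ) := by
        ext l
        rw [mem_Ico, mem_Icc]
        omega
      rw [e4]
      simp only [Nat.choose_zero_right, Nat.cast_one, pow_zero, mul_one, Nat.choose_self, one_mul]
      ring
  refine ⟨M⁻¹.mulVec 1, fun k hk hk1 => ?_⟩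
  have hone : M.mulVec (M⁻¹.mulVec 1) = 1 := by
    rw [Matrix.mulVec_mulVec, Matrix.mul_nonsing_inv M hM, Matrix.one_mulVec]
  obtain ⟨j, hj⟩ : ∃ j : Fin d, (if (j : ℕ) = 0 then 0 else (j : ℕ) + 1) = k := by
    rcases Nat.eq_zero_or_pos k with rfl | hk0
    · exact ⟨⟨0, by omega⟩, by simp⟩
    · refine ⟨⟨k - 1, by omega⟩, ?_⟩
      have : ¬ (k - 1 = 0) := by omega
      simp only [this, if_false]
      omega
  have h := congrFun hone j
  rw [Matrix.mulVec, dotProduct, Pi.one_apply] at h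
  refine Eq.trans ?_ h
  refine Finset.sum_congr rfl fun i _ => ?_
  rw [hMij, mul_comm]
  congr 1
  by_cases hj0 : (j : ℕ) = 0
  · rw [if_pos hj0] at hj ⊢
    rw [← hj, pow_zero, pow_zero]
    ring
  · rw [if_neg hj0] at hj ⊢
    rw [← hj]

end Pool.Agent.H13.PolyMap
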