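import Pool.Agent.H13.Blr

/-!
# Approximate homomorphisms into reduced commutative algebras of operators
-/

set_option autoImplicit false

namespace Pool.Agent.H13.RankSplit

open Finset Module

variable {R : Type*} [CommRing R] [IsArtinianRing R] [IsReduced R]
variable {K V : Type*} [Field K] [AddCommGroup V] [Module K V] [FiniteDimensional K V]

/-- rank of an operator -/
noncomputable def rk (a : Module.End K V) : ℕ := finrank K (LinearMap.range a)

open Classical in
/-- the primitive idempotents -/
noncomputable def idem (I : MaximalSpectrum R) : R :=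
  (IsArtinianRing.equivPi R).symm (Pi.single I 1)

lemma equivPi_idem (I : MaximalSpectrum R) :
    IsArtinianRing.equivPi R (idem I) = (open Classical in Pi.single I 1) := by
  rw [idem, AlgEquiv.apply_symm_apply]

lemma idem_mul_self (I : MaximalSpectrum R) : (idem I : R) * idem I = idem I := by
  classical
  apply (IsArtinianRing.equivPi R).injective
  rw [map_mul, equivPi_idem]
  funext J
  by_cases h : J = I
  · subst h; simp
  · simp [Pi.single_eq_of_ne h]

lemma idem_mul_of_ne {I J : MaximalSpectrum R} (h : I ≠ J) : (idem I : R) * idem J = 0 := by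
  classical
  apply (IsArtinianRing.equivPi R).injective
  rw [map_mul, equivPi_idem, equivPi_idem, map_zero]
  funext L
  by_cases hL : L = I
  · subst hL; simp [Pi.single_eq_of_ne h]
  · simp [Pi.single_eq_of_ne hL]

lemma sum_idem [Fintype (MaximalSpectrum R)] : ∑ I : MaximalSpectrum R, (idem I : R) = 1 := by
  classical
  apply (IsArtinianRing.equivPi R).injective
  rw [map_sum, map_one]
  funext L
  rw [Finset.sum_apply]
  simp only [equivPi_idem]
  rw [Finset.sum_eq_single L]
  · simp
  · intro b _ hb
    exact Pi.single_eq_of_ne (Ne.symm hb) _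
  · simp

lemma idem_mul_eq_zero {I : MaximalSpectrum R} {a : R} (h : Ideal.Quotient.mk I.asIdeal a = 0) :
    idem I * a = 0 := by
  classical
  apply (IsArtinianRing.equivPi R).injective
  rw [map_mul, equivPi_idem, map_zero]
  funext L
  by_cases hL : L = I
  · subst hL
    rw [Pi.mul_apply, IsArtinianRing.equivPi_apply]
    simpa using h
  · simp [Pi.single_eq_of_ne hL]

lemma exists_inv {I : MaximalSpectrum R} {a : R} (h : Ideal.Quotient.mk I.asIdeal a ≠ 0) :
    ∃ b : R, idem I * a * b = idem I := by
  classical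
  have hI : I.asIdeal.IsMaximal := I.isMaximal
  obtain ⟨c, hc⟩ := (Ideal.Quotient.field I.asIdeal).toIsField.mul_inv_cancel h
  obtain ⟨b, rfl⟩ := Ideal.Quotient.mk_surjective c
  refine ⟨b, ?_⟩
  apply (IsArtinianRing.equivPi R).injective
  rw [map_mul, map_mul, equivPi_idem]
  funext L
  by_cases hL : L = I
  · subst hL
    rw [Pi.mul_apply, Pi.mul_apply, IsArtinianRing.equivPi_apply, IsArtinianRing.equivPi_apply]
    simpa using hc
  · simp [Pi.single_eq_of_ne hL]

lemma rk_split [Fintype (MaximalSpectrum R)] (φ : R →+* Module.End K V) (a : R) :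
    rk (φ a) = ∑ I : MaximalSpectrum R, rk (φ (idem I * a)) := by
  classical
  let Φ : LinearMap.range (φ a) →ₗ[K] (∀ I : MaximalSpectrum R, LinearMap.range (φ (idem I * a))) :=
    LinearMap.pi fun I => LinearMap.codRestrict _ ((φ (idem I)).comp (LinearMap.range (φ a)).subtype)
      (by
        rintro ⟨v, u, rfl⟩
        refine ⟨u, ?_⟩
        rw [map_mul]
        rfl)
  have hΦ : ∀ v I, ((Φ v I : LinearMap.range (φ (idem I * a))) : V) = φ (idem I) v.1 :=
    fun v I => rfl
  have hinj : Function.Injective Φ := by
    rw [← LinearMap.ker_eq_bot, LinearMap.ker_eq_bot']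
    intro v hv
    apply Subtype.ext
    have : v.1 = ∑ I : MaximalSpectrum R, φ (idem I) v.1 := by
      rw [← LinearMap.sum_apply, ← map_sum, sum_idem, map_one]
      rfl
    rw [this]
    apply Finset.sum_eq_zero
    intro I _
    rw [← hΦ, hv]
    rfl
  have hsurj : Function.Surjective Φ := by
    intro t
    choose u hu using fun I => (t I).2
    refine ⟨⟨φ a (∑ J, φ (idem J) (u J)), ⟨_, rfl⟩⟩, ?_⟩
    funext I
    apply Subtype.ext
    rw [hΦ]
    show φ (idem I) (φ a (∑ J, φ (idem J) (u J))) = (t I : V)
    rw [← hu I]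
    have e1 : φ (idem I) (φ a (∑ J, φ (idem J) (u J))) =
        ∑ J, φ (idem I * a * idem J) (u J) := by
      rw [map_sum, map_sum]
      refine Finset.sum_congr rfl fun J _ => ?_
      rw [map_mul, map_mul]
      rfl
    rw [e1, Finset.sum_eq_single I]
    · congr 2
      rw [mul_right_comm, idem_mul_self]
    · intro J _ hJ
      rw [mul_right_comm, idem_mul_of_ne (Ne.symm hJ), zero_mul, map_zero]
      rfl
    · simp
  have := (LinearEquiv.ofBijective Φ ⟨hinj, hsurj⟩).finrank_eq
  rw [rk, this, Module.finrank_pi_fintype]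
  rfl

lemma rk_idem_mul (φ : R →+* Module.End K V) (a : R) (I : MaximalSpectrum R) :
    rk (φ (idem I * a)) =
      rk (φ (idem I)) * (open Classical in if Ideal.Quotient.mk I.asIdeal a ≠ 0 then 1 else 0) := by
  split_ifs with h
  · rw [mul_one, rk, rk]
    obtain ⟨b, hb⟩ := exists_inv h
    have h1 : LinearMap.range (φ (idem I * a)) = LinearMap.range (φ (idem I)) := by
      apply le_antisymm
      · rintro _ ⟨u, rfl⟩
        refine ⟨φ a u, ?_⟩
        rw [map_mul]
        rfl
      · rintro _ ⟨u, rfl⟩
        refine ⟨φ b u, ?_⟩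
        rw [← Module.End.mul_apply, ← map_mul, hb]
    rw [h1]
  · rw [not_not] at h
    rw [idem_mul_eq_zero h, map_zero, mul_zero, rk, LinearMap.range_zero, finrank_bot]

theorem main {G : Type*} [Group G] [Fintype G] (φ : R →+* Module.End K V) (f : G → R) (r : ℕ)
    (hf : ∀ x y, rk (φ (f x + f y - f (x * y))) ≤ r) :
    ∃ g : G → R, (∀ x y, g (x * y) = g x + g y) ∧ ∀ x, rk (φ (f x - g x)) ≤ 6 * r := by
  classical
  have : Fintype (MaximalSpectrum R) := Fintype.ofFinite _
  obtain ⟨g, hg⟩ := Blr.weighted (G := G) (ι := MaximalSpectrum R)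
    (fun I => Multiplicative (R ⧸ I.asIdeal)) (fun I => rk (φ (idem I))) r
    (fun I x => Multiplicative.ofAdd (Ideal.Quotient.mk I.asIdeal (f x))) (by
      intro x y
      refine le_trans (le_of_eq ?_) (hf x y)
      rw [rk_split]
      refine Finset.sum_congr rfl fun I _ => ?_
      rw [rk_idem_mul]
      congr 1
      have : (Multiplicative.ofAdd (Ideal.Quotient.mk I.asIdeal (f x)) *
        Multiplicative.ofAdd (Ideal.Quotient.mk I.asIdeal (f y)) ≠
          Multiplicative.ofAdd (Ideal.Quotient.mk I.asIdeal (f (x * y)))) ↔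
          Ideal.Quotient.mk I.asIdeal (f x + f y - f (x * y)) ≠ 0 := by
        rw [← ofAdd_add, ne_eq, Multiplicative.ofAdd.injective.eq_iff, ← map_add, ne_eq,
          map_sub, sub_eq_zero]
      exact if_congr this rfl rfl)
  refine ⟨fun x => (IsArtinianRing.equivPi R).symm fun I => Multiplicative.toAdd (g I x), ?_, ?_⟩
  · intro x y
    have e : (fun I => Multiplicative.toAdd (g I (x * y)) : ∀ I : MaximalSpectrum R, R ⧸ I.asIdeal)
        = (fun I => Multiplicative.toAdd (g I x)) + fun I => Multiplicative.toAdd (g I y) := by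
      funext I
      have h1 := (g I).map_mul x y
      show Multiplicative.toAdd (g I (x * y)) = _
      rw [h1]
      rfl
    show (IsArtinianRing.equivPi R).symm _ = (IsArtinianRing.equivPi R).symm _ +
      (IsArtinianRing.equivPi R).symm _
    rw [e, map_add]
  · intro x
    refine le_trans (le_of_eq ?_) (hg x)
    rw [rk_split]
    refine Finset.sum_congr rfl fun I _ => ?_
    rw [rk_idem_mul]
    congr 1
    have : Ideal.Quotient.mk I.asIdeal (f x - (IsArtinianRing.equivPi R).symm
        fun I => Multiplicative.toAdd (g I x)) ≠ 0 ↔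
        Multiplicative.ofAdd (Ideal.Quotient.mk I.asIdeal (f x)) ≠ g I x := by
      rw [map_sub, ne_eq, sub_eq_zero, ← IsArtinianRing.equivPi_apply R
        ((IsArtinianRing.equivPi R).symm _) I, AlgEquiv.apply_symm_apply]
      rfl
    exact if_congr this rfl rfl

end Pool.Agent.H13.RankSplit
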